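import Mathlib
import Pool.Agent.TH68.Defs
import Pool.Agent.Helper97.Hyp.Axis

set_option autoImplicit false

/-! Basic notions for the marked groups project (helper507). -/

namespace Pool.Agent.H507

open Pool.Agent.TH68 Pool.Agent.Helper97.Hyp

/-- elementary groups: a cyclic subgroup of finite index -/
def Elem (G : Type*) [Group G] : Prop := ∃ C : Subgroup G, C.FiniteIndex ∧ IsCyclic C

/-- no non-trivial finite normal subgroup -/
def NoFin (G : Type*) [Group G] : Prop := ∀ N : Subgroup G, N.Normal → Finite N → N = ⊥

end Pool.Agent.H507
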