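import Mathlib

set_option autoImplicit false

/-! The space of finitely generated marked groups (helper507). -/

namespace Pool.Agent.H507



/-- A finitely generated marked group `(G, (a₀, …, a_{n-1}))`, given by the kernel of the
homomorphism from the free group on `x₀, x₁, …` to `G` with `xᵢ ↦ aᵢ` for `i < n` and `xᵢ ↦ 1` for
`i ≥ n`. -/
@[ext]
structure MG where
  /-- the kernel -/
  ker : Subgroup (FreeGroup ℕ)
  normal : ker.Normal
  fin : ∃ n : ℕ, ∀ i, n ≤ i → FreeGroup.of i ∈ ker

attribute [instance] MG.normal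

/-- the group of a marked group -/
abbrev MG.grp (N : MG) : Type := FreeGroup ℕ ⧸ N.ker

/-- `𝒢ₙ`, the groups marked by `n` generators (the images of `x₀, …, x_{n-1}`) -/
def stage (n : ℕ) : Set MG := {N | ∀ i, n ≤ i → FreeGroup.of i ∈ N.ker}

/-- The union topology: a set is open when its trace on every `𝒢ₙ` is open, and a neighbourhood
of a marked group in `𝒢ₙ` consists of the members of `𝒢ₙ` satisfying the same relations from a
finite set of words. -/
instance : TopologicalSpace MG where
  IsOpen U := ∀ n, ∀ N ∈ U, N ∈ stage n → ∃ B : Finset (FreeGroup ℕ), ∀ N' ∈ stage n,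
    (∀ g ∈ B, g ∈ N'.ker ↔ g ∈ N.ker) → N' ∈ U
  isOpen_univ := fun _ _ _ _ => ⟨∅, fun _ _ _ => trivial⟩
  isOpen_inter := by
    classical
    intro U V hU hV n N hN hn
    obtain ⟨B, hB⟩ := hU n N hN.1 hn
    obtain ⟨B', hB'⟩ := hV n N hN.2 hn
    refine ⟨B ∪ B', fun N' hN' h => ⟨hB N' hN' fun g hg => h g (Finset.mem_union_left _ hg),
      hB' N' hN' fun g hg => h g (Finset.mem_union_right _ hg)⟩⟩
  isOpen_sUnion := by
    intro s hs n N hN hn
    obtain ⟨U, hU, hNU⟩ := hN
    obtain ⟨B, hB⟩ := hs U hU n N hNU hn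
    exact ⟨B, fun N' hN' h => ⟨U, hU, hB N' hN' h⟩⟩

/-- the function symbols of the language of groups -/
inductive GpFunc : ℕ → Type
  | one : GpFunc 0
  | inv : GpFunc 1
  | mul : GpFunc 2

/-- the language of groups `{1, ⁻¹, ·}` -/
def Lgp : FirstOrder.Language.{0, 0} := ⟨GpFunc, fun _ => Empty⟩

/-- groups as structures -/
instance gpStr (G : Type*) [Group G] : Lgp.Structure G where
  funMap {n} (f : GpFunc n) (v : Fin n → G) :=
    match n, f, v with
    | _, .one, _ => 1
    | _, .inv, v => (v 0)⁻¹
    | _, .mul, v => v 0 * v 1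
  RelMap {_} (r : Empty) _ := r.elim

/-- the complete first order theory of the group of a marked group -/
noncomputable def thy (N : MG) : Lgp.Theory := Lgp.completeTheory N.grp

end Pool.Agent.H507
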