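import Pool.Agent.H507_D.Defs
import Pool.Agent.H507_D.Top

set_option autoImplicit false

/-! The finite radical and two indices (helper507). -/

namespace Pool.Agent.H507

open Pool.Agent.TH68 Pool.Agent.Helper97.Hyp

/-- the finite radical: the subgroup generated by all finite normal subgroups -/
def rad (G : Type*) [Group G] : Subgroup G := sSup {N : Subgroup G | N.Normal ∧ Finite N}

instance rad_normal (G : Type*) [Group G] : (rad G).Normal := by
  refine ⟨fun n hn g => ?_⟩
  have h : rad G ≤ (rad G).comap (MulAut.conj g).toMonoidHom := by
    unfold rad
    apply sSup_le
    intro N hN x hx
    have := hN.1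
    exact (le_sSup hN : N ≤ sSup {N : Subgroup G | N.Normal ∧ Finite N})
      (this.conj_mem x hx g)
  exact h hn

/-- the index of the centralizer of the finite radical -/
noncomputable def pidx (G : Type*) [Group G] : ℕ :=
  (Subgroup.centralizer (rad G : Set G)).index

/-- the index of the centre of the finite radical -/
noncomputable def qidx (G : Type*) [Group G] : ℕ := (Subgroup.center (rad G)).index

/-- the finite residual: the intersection of all subgroups of finite index -/
def fres (G : Type*) [Group G] : Subgroup G := sInf {N : Subgroup G | N.FiniteIndex}

end Pool.Agent.H507
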