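import Pool.Agent.H507_D.Defs
import Pool.Agent.TH68.Sys
import Pool.Agent.TH63.SC.LineEx

set_option autoImplicit false
set_option linter.unusedSectionVars false

/-! The system of translates of the axis of one loxodromic element (helper507). -/

namespace Pool.Agent.H507

open Pool.Agent.TH68 Pool.Agent.Helper97.Hyp

variable {Γ : Type*} [Group Γ] {W : WNorm Γ} {δ : ℝ} {o : Pt W} {c : Γ}

/-- the system of lines of a loxodromic element: the lines are the cosets of `Lox.E c` -/
noncomputable def lineSys (hδ : 1 ≤ δ) (h : Lox δ o c) : Sys Γ W (Γ ⧸ Lox.E c) where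
  δ := δ
  θ := δ + (Lox.c2 o c δ + Lox.th1 o c δ)
  hyp := h.hyp
  hδ := hδ
  hθ := by
    have h1 := h.c2_nonneg
    have h2 := h.th1_nonneg
    linarith
  S := fun A => Lox.ax o c A
  Sne := fun A => Lox.ax_ne A
  smul_mem := by
    intro γ A x hx
    rw [Lox.ax_smul, inv_smul_smul]
    exact hx
  proj := by
    intro A x
    obtain ⟨q, hq⟩ := (h.qline_ax A).proj x
    have h1 := h.c2_nonneg
    have h2 := h.th1_nonneg
    exact ⟨q, hq.1, fun s hs => (hq.2 s hs).trans (by linarith)⟩
  small := by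
    intro A B hAB p hp q hq
    have h1 := h.c2_nonneg
    have h2 := h.th1_nonneg
    have := h.proj_bound (proper o) hAB hp hq
    linarith

lemma lineSys_S (hδ : 1 ≤ δ) (h : Lox δ o c) (A : Γ ⧸ Lox.E c) :
    (lineSys hδ h).S A = Lox.ax o c A := rfl

lemma lineSys_δ (hδ : 1 ≤ δ) (h : Lox δ o c) : (lineSys hδ h).δ = δ := rfl

end Pool.Agent.H507
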