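import Pool.Agent.H507_D.Line

set_option autoImplicit false
set_option linter.unusedSectionVars false

/-! The system of translates of the axes of finitely many non-commensurable loxodromic elements
(helper507). -/

namespace Pool.Agent.H507

open Pool.Agent.TH68 Pool.Agent.Helper97.Hyp

variable {Γ : Type*} [Group Γ] {W : WNorm Γ} {δ : ℝ} {ι : Type*} {o : ι → Pt W} {c : ι → Γ}

/-- no nonzero powers of `c i`, `c j`, `i ≠ j`, are conjugate -/
def NonComm (c : ι → Γ) : Prop :=
  ∀ i j, i ≠ j → ∀ (g : Γ) (n m : ℤ), n ≠ 0 → m ≠ 0 → g * c i ^ n * g⁻¹ ≠ c j ^ m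

/-- the joint constant of the lines -/
noncomputable def linesθ [Fintype ι] (δ : ℝ) (o : ι → Pt W) (c : ι → Γ) : ℝ :=
  δ + ∑ i : ι, ∑ j : ι, (Lox.c2 (o i) (c i) δ + Lox.th1 (o i) (c i) δ +
    Lox.th1' (o i) (o j) (c i) (c j) δ)

lemma le_linesθ [Fintype ι] (h : ∀ i, Lox δ (o i) (c i)) (i j : ι) :
    δ + (Lox.c2 (o i) (c i) δ + Lox.th1 (o i) (c i) δ +
      Lox.th1' (o i) (o j) (c i) (c j) δ) ≤ linesθ δ o c := by
  unfold linesθ
  apply add_le_add le_rfl
  have h0 : ∀ x y : ι, 0 ≤ Lox.c2 (o x) (c x) δ + Lox.th1 (o x) (c x) δ +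
      Lox.th1' (o x) (o y) (c x) (c y) δ := by
    intro x y
    have h1 := (h x).c2_nonneg
    have h2 := (h x).th1_nonneg
    have h3 := (h x).th1'_nonneg (o' := o y) (g' := c y)
    linarith
  refine le_trans ?_ (Finset.single_le_sum (fun x _ => Finset.sum_nonneg fun y _ => h0 x y)
    (Finset.mem_univ i))
  exact Finset.single_le_sum (f := fun y => (Lox.c2 (o i) (c i) δ + Lox.th1 (o i) (c i) δ +
    Lox.th1' (o i) (o y) (c i) (c y) δ)) (fun y _ => h0 i y) (Finset.mem_univ j)

/-- the system of lines of non-commensurable loxodromic elements: the lines are the cosets of the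
subgroups `Lox.E (c i)` -/
noncomputable def linesSys [Fintype ι] (hyp : GHyp (Pt W) δ) (hδ : 1 ≤ δ)
    (h : ∀ i, Lox δ (o i) (c i)) (hnc : NonComm c) : Sys Γ W (Σ i : ι, Γ ⧸ Lox.E (c i)) :=
  { δ := δ
    θ := max δ (linesθ δ o c)
    hyp := hyp
    hδ := hδ
    hθ := le_max_left _ _
    S := fun A => Lox.ax (o A.1) (c A.1) A.2
    Sne := fun A => Lox.ax_ne A.2
    smul_mem := by
      rintro γ ⟨b, A⟩ x hx
      change γ • x ∈ Lox.ax (o b) (c b) (γ • A)
      rw [Lox.ax_smul, inv_smul_smul]
      exact hx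
    proj := by
      rintro ⟨b, A⟩ x
      obtain ⟨q, hq⟩ := ((h b).qline_ax A).proj x
      have h1 := le_linesθ h b b
      have h2 := (h b).c2_nonneg
      have h3 := (h b).th1_nonneg
      have h4 := (h b).th1'_nonneg (o' := o b) (g' := c b)
      have h5 := le_max_right δ (linesθ δ o c)
      exact ⟨q, hq.1, fun s hs => (hq.2 s hs).trans (by linarith)⟩
    small := by
      rintro ⟨b, A⟩ ⟨b', B⟩ hAB p hp q hq
      have h1 := le_linesθ h b b'
      have h2 := (h b).c2_nonneg
      have h3 := (h b).th1_nonneg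
      have h4 := (h b).th1'_nonneg (o' := o b') (g' := c b')
      have h5 := le_max_right δ (linesθ δ o c)
      by_cases hbb : b = b'
      · subst hbb
        have hAB' : A ≠ B := fun h => hAB (by rw [h])
        have := (h b).proj_bound (proper (o b)) hAB' hp hq
        refine le_trans this ?_
        linarith
      · obtain ⟨α, rfl⟩ := QuotientGroup.mk_surjective A
        obtain ⟨β, rfl⟩ := QuotientGroup.mk_surjective B
        have hprop : ∀ r : ℝ, {γ : Γ | dist (o b) (γ • o b') ≤ r}.Finite := by
          intro r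
          apply (proper (o b) (r + dist (o b) (o b'))).subset
          intro γ hγ
          have h1 : dist (o b) (γ • o b') ≤ r := hγ
          change dist (o b) (γ • o b) ≤ _
          have h2 := dist_triangle (o b) (γ • o b') (γ • o b)
          rw [dist_smul, dist_comm (o b') (o b)] at h2
          linarith
        have := (h b).proj_pair' (h b') hprop (α := α) (β := β)
          (fun m n hm hn => hnc b' b (Ne.symm hbb) _ m n hm hn) hp hq
        refine le_trans this ?_
        linarith }

end Pool.Agent.H507
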